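import Pool.Agent.H89.Dens.Defs
import Pool.Agent.H89.Dens.Main

/-!
The statement of the question is false for every `q ≥ 4`. For every prime power `s` and every
`q ≥ s ^ 2` there is a finite collection of matroids in `U(q)` such that `s` is the largest prime
power `r ≤ q` for which no member of the collection is representable over the field with `r`
elements, and the size function is at least `(s ^ (n + 1) - 1) / (s - 1) - s` for all `n ≥ 2`.
-/

set_option autoImplicit false

namespace Pool.Agent.Results.MP_f02e69_co.DenserClasses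

open Pool.Agent.H89.Dens

theorem result :
    (∀ q : ℕ, 4 ≤ q → ¬ Statement q) ∧
    ∀ s q : ℕ, IsPrimePow s → s ^ 2 ≤ q →
      ∃ (ι : Type) (_ : Finite ι) (β : ι → Type) (M : ∀ i, Matroid (β i)),
        (∀ i, (M i).Finite ∧ InU q (M i)) ∧
        IsGreatest {r : ℕ | IsPrimePow r ∧ r ≤ q ∧ ∀ i, ¬ InL r (M i)} s ∧
        ∀ n : ℕ, 2 ≤ n →
          (s ^ n - 1) / (s - 1) < (s ^ (n + 1) - 1) / (s - 1) - s ∧
          (((s ^ (n + 1) - 1) / (s - 1) - s : ℕ) : ℕ∞) ≤ sizeFn (InClass q M) n :=
  ⟨not_statement, main⟩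

end Pool.Agent.Results.MP_f02e69_co.DenserClasses
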